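import Pool.Agent.Lib.helper21.NS
set_option linter.style.longLine false
namespace Pool.Agent.Results.MP_c014b8_lc.Iff
open Set Cardinal Order Function Filter Pool.Agent.Lib.helper21.NS

/-- `P ≤_T Q` -/
def Tukey (P Q : Type) [Preorder P] [Preorder Q] : Prop := ∃ f : Q → P, ∀ B, IsCofinal B → IsCofinal (f '' B)

/-- the Tukey spectrum -/
def Sp (P : Type) [Preorder P] : Set Cardinal.{0} := {κ | κ.IsRegular ∧ Tukey κ.ord.ToType P}

/-- regular cardinals `k n` converging to `l` whose product modulo finite is `l⁺⁺`-directed -/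
def Dir (l : Cardinal.{0}) : Prop := ∃ k : ℕ → Cardinal.{0}, (∀ n, (k n).IsRegular ∧ ℵ₀ < k n ∧ k n < l) ∧
  (∀ μ < l, ∀ᶠ n in atTop, μ < k n) ∧
  ∀ S : Set (∀ n, (k n).ord.ToType), #S ≤ succ l → ∃ g : ∀ n, (k n).ord.ToType, ∀ f ∈ S, ∀ᶠ n in atTop, f n ≤ g n

lemma tk {X P : Type} [LinearOrder X] [WellFoundedLT X] [Preorder P] :
    Tukey X P ↔ ∃ F : P → X, Monotone F ∧ ∀ x, ∃ p, x ≤ F p := by
  refine ⟨fun ⟨f, h⟩ => ?_, fun ⟨F, a, b⟩ => ⟨F, fun B c x => let ⟨p, d⟩ := b x; let ⟨q, e, i⟩ := c p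
    ⟨_, ⟨q, e, rfl⟩, d.trans (a i)⟩⟩⟩
  choose F a b using fun p => wellFounded_lt.has_min (f '' Ici p) ⟨_, p, le_rfl, rfl⟩
  refine ⟨F, fun p q c => not_lt.1 (b p _ (image_mono (Ici_subset_Ici.2 c) (a q))), fun x => by_contra fun c => ?_⟩
  obtain ⟨_, ⟨q, d, rfl⟩, e⟩ := h {q | f q < x} (fun p => let ⟨q, i, j⟩ := a p
    ⟨q, j.trans_lt (not_le.1 fun k => c ⟨p, k⟩), i⟩) x
  exact e.not_gt d

theorem result (l : Cardinal.{0}) (hl : ℵ₀ < l) (a : ℕ → Cardinal.{0}) (a1 : ∀ n, a n < l) (a2 : ∀ μ < l, ∃ n, μ < a n) :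
    (∃ (P : Type) (_ : PartialOrder P), IsDirectedOrder P ∧ ℵ₀ ∉ Sp P ∧ (∀ μ < l, ∃ κ ∈ Sp P, μ < κ ∧ κ < l) ∧
      succ l ∉ Sp P) ↔ Dir l := by
  classical
  have R := reg_of_isRegular (isRegular_succ hl.le) (lt_succ_of_le hl.le)
  have mk : #(succ l).ord.ToType = succ l := mk_ord_toType _
  obtain ⟨e⟩ : Nonempty (ℕ ≃o (ℵ₀ : Cardinal.{0}).ord.ToType) := by
    rw [ord_aleph0, ← Ordinal.type_nat_lt]; exact ⟨(Ordinal.type_eq.1 (Ordinal.type_toType _).symm).some |> OrderIso.ofRelIsoLT⟩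
  refine ⟨fun ⟨P, _, _, p0, p1, p2⟩ => ?_, fun ⟨k, k1, k2, k3⟩ => ?_⟩
  · choose k k1 k2 k3 using fun n => p1 (max ℵ₀ (partialSups a n)) (max_lt hl (by
      induction n with
      | zero => exact a1 0
      | succ n i => rw [partialSups_add_one]; exact max_lt i (a1 _)))
    have Q := fun n => reg_of_isRegular (k1 n).1 ((le_max_left _ _).trans_lt (k2 n))
    have cv : ∀ μ < l, ∀ᶠ n in atTop, μ < k n := fun μ c => let ⟨m, d⟩ := a2 μ c; eventually_atTop.2 ⟨m, fun n i =>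
      (d.trans_le ((le_partialSups_of_le a i).trans (le_max_right _ _))).trans (k2 n)⟩
    refine ⟨k, fun n => ⟨(k1 n).1, (le_max_left _ _).trans_lt (k2 n), k3 n⟩, cv, fun S hS => by_contra fun c => p2
      ⟨isRegular_succ hl.le, tk.2 ?_⟩⟩
    choose F F1 q F2 using fun n => tk.1 (k1 n).2
    have cf : ∀ g : ∀ n, (k n).ord.ToType, ∃ p, ∀ n, g n ≤ F n p := fun g => by_contra fun d => p0 ⟨isRegular_aleph0, tk.2 <| by
      have d := fun p => not_forall.1 fun i => d ⟨p, i⟩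
      refine ⟨fun p => e (Nat.find (d p)), fun p p' i => e.monotone (Nat.find_mono fun n j x => j (x.trans (F1 n i))),
        fun x => ?_⟩
      have : Nonempty P := ⟨q 0 (g 0)⟩
      obtain ⟨p, i⟩ := ((finite_Iio (e.symm x)).image fun n => q n (g n)).bddAbove
      exact ⟨p, e.symm_apply_le.1 ((Nat.le_find_iff _ _).2 fun n j => not_not.2 ((F2 n _).trans (F1 n (i ⟨n, j, rfl⟩))))⟩⟩
    obtain ⟨⟨i⟩⟩ : Nonempty (S ↪ (succ l).ord.ToType) := Cardinal.le_def _ _ |>.1 (hS.trans_eq mk.symm)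
    choose H H1 H2 using fun p => wellFounded_lt.has_min (i '' {f | ¬ ∀ᶠ n in atTop, f.1 n ≤ F n p}) (by_contra fun d =>
      c ⟨fun n => F n p, fun f j => by_contra fun m => d ⟨_, ⟨f, j⟩, m, rfl⟩⟩)
    refine ⟨H, fun p p' j => not_lt.1 (H2 p _ (image_mono (fun f => mt fun o => Eventually.mono o fun n x => x.trans (F1 n j)) (H1 p'))),
      fun x => ?_⟩
    obtain ⟨j, j1⟩ : Nonempty (i ⁻¹' Iic x ↪ Σ n, (a n).out) := Cardinal.le_def _ _ |>.1 ((lt_succ_iff.1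
      (((mk_preimage_of_injective _ _ ‹_›).trans_lt (R.small x)).trans_eq mk)).trans (le_of_forall_lt fun μ d =>
        let ⟨n, o⟩ := a2 μ d; o.trans_le (by simpa using le_sum a n)))
    choose g hg using fun n => (Q n).bdd_iUnion (ι := Iic n) (mk_le_aleph0.trans_lt (Q n).unc)
      (fun m => (fun f : i ⁻¹' Iic x => f.1.1 n) '' (j ⁻¹' range (Sigma.mk m.1))) fun m => (Q n).bdd _ (by
        refine (mk_image_le.trans ((mk_preimage_of_injective _ _ j1).trans mk_range_le)).trans_lt ?_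
        simpa using ((le_partialSups_of_le a m.2).trans (le_max_right _ _)).trans_lt (k2 n))
    obtain ⟨p, m⟩ := cf g
    obtain ⟨f, o, d⟩ := H1 p
    refine ⟨p, not_lt.1 fun y => o (eventually_atTop.2 ⟨(j ⟨f, d.le.trans y.le⟩).1, fun t w => le_trans ?_ (m t)⟩)⟩
    exact hg t (mem_iUnion.2 ⟨⟨_, w⟩, _, ⟨_, rfl⟩, rfl⟩)
  have Q := fun n => reg_of_isRegular (k1 n).1 (k1 n).2.1
  have := fun n => (Q n).nonempty
  refine ⟨∀ n, (k n).ord.ToType, inferInstance, inferInstance, fun ⟨_, c⟩ => ?_, fun μ c => let ⟨n, d⟩ := (k2 μ c).exists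
    ⟨k n, ⟨(k1 n).1, tk.2 ⟨(· n), fun _ _ i => i n, fun x => ⟨update (Classical.arbitrary _) n x, by simp⟩⟩⟩, d, (k1 n).2.2⟩,
    fun ⟨_, c⟩ => ?_⟩ <;> obtain ⟨F, F1, c⟩ := tk.1 c <;> choose q hq using c
  · choose g hg using fun n => (Q n).bdd (range fun i => q (e i) n) (mk_range_le.trans_lt (by simpa using (k1 n).2.1))
    exact (Nat.lt_succ_self _).not_ge (e.le_symm_apply.2 ((hq (e (e.symm (F g) + 1))).trans (F1 fun n => hg n ⟨_, rfl⟩)))
  obtain ⟨g, hg⟩ := k3 (range q) (mk_range_le.trans_eq mk)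
  obtain ⟨x, hx⟩ := R.bdd_iUnion (ι := List (Σ n, (k n).ord.ToType)) (by
    rw [mk, lt_succ_iff]
    refine (mk_list_le_max _).trans (max_le hl.le ?_)
    rw [mk_sigma]
    exact (sum_le_sum _ (fun _ => l) fun n => by simpa using (k1 n).2.2.le).trans (by simp [hl.le])) (fun s => {ξ | ∀ n, q ξ n ≤ g n ∨ ⟨n, q ξ n⟩ ∈ s}) fun s => by
      choose u hu using fun n => ((s.finite_toSet.preimage (f := Sigma.mk n) sigma_mk_injective.injOn).insert (g n)).bddAbove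
      exact ⟨F u, fun ξ i => (hq ξ).trans (F1 fun n => (i n).elim (·.trans (hu n (.inl rfl))) fun j => hu n (.inr j))⟩
  obtain ⟨y, hy⟩ := R.exists_gt x
  obtain ⟨m, i⟩ := eventually_atTop.1 (hg _ ⟨y, rfl⟩)
  exact hy.not_ge (hx (mem_iUnion.2 ⟨(List.range m).map fun n => ⟨n, q y n⟩, fun n => (le_or_gt m n).imp (i n) fun j =>
    List.mem_map.2 ⟨n, List.mem_range.2 j, rfl⟩⟩))

end Pool.Agent.Results.MP_c014b8_lc.Iff
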